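import Pool.Agent.Lib.H68.Types
import Pool.Agent.Lib.H68.Chev10

/-! # Integral adjoint Chevalley groups of all open types are generated by three involutions,
two of which commute -/

namespace Pool.Agent.Results.MP_9bf44d_al.Chevalley

open MP9bf44d LieAlgebra LieAlgebra.IsKilling LieModule

/-- Let `L` be a simple Lie algebra over a field `K` of characteristic zero (for instance `ℂ`),
`H` a splitting Cartan subalgebra, `b` a base of the root system whose Cartan matrix is of type
`B_l` (`l ≥ 3`), `C_l` (`l ≥ 3`), `D_l` (`l ≥ 4`), `E₆`, `E₇`, `E₈`, `F₄` or `G₂`, and `x` the root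
vectors of a Chevalley basis. Then the adjoint Chevalley group over `ℤ`, i.e. the subgroup of
`GL(L_ℤ)` generated by all `exp (t ad x_α)` with `α` a root and `t ∈ ℤ`, is generated by three
involutions two of which commute. -/
theorem result {K L : Type*} [Field K] [CharZero K] [LieRing L] [LieAlgebra K L]
    [FiniteDimensional K L] [LieAlgebra.IsSimple K L]
    (H : LieSubalgebra K L) [H.IsCartanSubalgebra] [LieModule.IsTriangularizable K H L]
    (b : (rootSystem H).Base) (hb : IsOpenType b.cartanMatrix)
    (x : Weight K H L → L) (hx : IsChevalleyBasis x) :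
    ThreeInvolutions (GadZ b x) := by
  have h := openTypes (hx.isChevSys.toBasis b) hb
  rw [Gad_toBasis] at h
  exact h.of_mulEquiv (gadEquiv hx b)

end Pool.Agent.Results.MP_9bf44d_al.Chevalley
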